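import Pool.Agent.Lead.Sel.All

theorem Pool.Agent.Results.MP_995735_nt.PoleNotZeta.result :
    ∃ (a : ℕ → ℂ) (F : ℂ → ℂ), Pool.Agent.H49.SelS.InSelberg a F ∧
      meromorphicOrderAt F 1 = (-1 : ℤ) ∧
      ¬ ∃ L : ℂ → ℂ, Differentiable ℂ L ∧ ∀ s : ℂ, s ≠ 1 → F s = riemannZeta s * L s :=
  Pool.Agent.H49.Sel.finPole Pool.Agent.Lead.Sel.selAll Pool.Agent.Lead.Sel.ker1
    Pool.Agent.Lead.Sel.mel
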